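import Pool.Agent.H317.GI.Stm

set_option autoImplicit false
set_option linter.unusedSectionVars false

namespace Pool.Agent.H668.GI

open Module Pool.Agent.H317.GR Pool.Agent.H317.GH Pool.Agent.H317.GI

/-- a subgroup is of finite index if its cosets are the fibres of a map with finite image -/
theorem fi {G X : Type*} [Group G] (H : Subgroup G) (f : G → X) (hf : (Set.range f).Finite)
    (h : ∀ a b, f a = f b → a⁻¹ * b ∈ H) : H.index ≠ 0 := by
  have : Finite (Set.range f) := hf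
  have h1 : Function.Injective (fun q : G ⧸ H => (⟨f q.out, q.out, rfl⟩ : Set.range f)) := by
    intro q q' hqq
    have h2 : f q.out = f q'.out := congrArg Subtype.val hqq
    have h3 := h _ _ h2
    rw [← QuotientGroup.out_eq' q, ← QuotientGroup.out_eq' q']
    exact QuotientGroup.eq.2 h3
  have : Finite (G ⧸ H) := Finite.of_injective _ h1
  exact Subgroup.index_ne_zero_of_finite

variable {K : Type} [Field K]

/-- finitely many joint characters -/
theorem finchar {M : Type} [AddCommGroup M] [Module K M] [FiniteDimensional K M] {ι : Type}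
    (f : ι → End K M) (hc : ∀ i j, Commute (f i) (f j)) :
    {χ : ι → K | ∃ v : M, v ≠ 0 ∧ ∀ i, f i v = χ i • v}.Finite := by
  have h1 := Module.End.independent_iInf_maxGenEigenspace_of_forall_mapsTo f
    (fun i j φ => (f j).mapsTo_maxGenEigenspace_of_comm (hc j i) φ)
  have h2 := Submodule.finite_ne_bot_of_iSupIndep h1
  refine h2.subset ?_
  rintro χ ⟨v, hv, hχ⟩
  intro h0
  apply hv
  have h3 : v ∈ ⨅ i, (f i).maxGenEigenspace (χ i) := by
    rw [Submodule.mem_iInf]
    intro i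
    have h4 : v ∈ (f i).eigenspace (χ i) := Module.End.mem_eigenspace_iff.2 (hχ i)
    exact (Module.End.genEigenspace (f i) (χ i)).monotone le_top h4
  rw [h0] at h3
  exact (Submodule.mem_bot K).1 h3

variable {V : Type} [AddCommGroup V] [Module K V] [FiniteDimensional K V] {G : Type} [Group G]

/-- common eigenvector of a commuting family -/
theorem common [IsAlgClosed K] [Nontrivial V] {ι : Type} (f : ι → End K V)
    (hc : ∀ i j, Commute (f i) (f j)) : ∃ v : V, v ≠ 0 ∧ ∀ i, ∃ c : K, f i v = c • v := by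
  obtain ⟨W, ⟨hW, hWi⟩, hmin⟩ := IsArtinian.set_has_minimal
    {W : Submodule K V | W ≠ ⊥ ∧ ∀ i, ∀ w ∈ W, f i w ∈ W} ⟨⊤, ⟨top_ne_bot, fun _ _ _ => trivial⟩⟩
  obtain ⟨v, hvW, hv⟩ := Submodule.exists_mem_ne_zero_of_ne_bot hW
  refine ⟨v, hv, fun i => ?_⟩
  have : Nontrivial W := Submodule.nontrivial_iff_ne_bot.2 hW
  obtain ⟨c, hcv⟩ := Module.End.exists_eigenvalue ((f i).restrict (hWi i))
  obtain ⟨w, hw, hw0⟩ := hcv.exists_hasEigenvector
  rw [Module.End.mem_eigenspace_iff] at hw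
  have hw1 : f i w = c • (w : V) := by
    have := congrArg Subtype.val hw
    exact this
  refine ⟨c, ?_⟩
  have h1 : W ⊓ (f i).eigenspace c = W := by
    by_contra hne
    refine hmin (W ⊓ (f i).eigenspace c) ⟨?_, ?_⟩ (lt_of_le_of_ne inf_le_left hne)
    · intro h0
      apply hw0
      have h2 : (w : V) ∈ W ⊓ (f i).eigenspace c := ⟨w.2, Module.End.mem_eigenspace_iff.2 hw1⟩
      rw [h0, Submodule.mem_bot] at h2
      exact Subtype.ext h2
    · rintro j u ⟨hu1, hu2⟩
      refine ⟨hWi j u hu1, ?_⟩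
      have hu2' : f i u = c • u := Module.End.mem_eigenspace_iff.1 hu2
      refine Module.End.mem_eigenspace_iff.2 ?_
      have h3 : f i (f j u) = f j (f i u) := LinearMap.congr_fun (hc i j) u
      rw [h3, hu2', map_smul]
  have h2 : v ∈ W ⊓ (f i).eigenspace c := by rw [h1]; exact hvW
  exact Module.End.mem_eigenspace_iff.1 h2.2

/-- no subgroup of finite index has a proper invariant subspace -/
def Irr (ρ : G →* End K V) : Prop :=
  ∀ H : Subgroup G, H.index ≠ 0 → ∀ W : Submodule K V, W ≠ ⊥ →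
    (∀ g ∈ H, ∀ w ∈ W, ρ g w ∈ W) → W = ⊤

theorem map_mul' (ρ : G →* End K V) (g h : G) (W : Submodule K V) :
    W.map (ρ (g * h)) = (W.map (ρ h)).map (ρ g) := by
  rw [map_mul, ← Submodule.map_comp]
  rfl

theorem map_one' (ρ : G →* End K V) (W : Submodule K V) : W.map (ρ 1) = W := by
  rw [map_one]
  exact Submodule.map_id W

/-- the stabilizer of a subspace -/
def stab (ρ : G →* End K V) (W : Submodule K V) : Subgroup G where
  carrier := {g | W.map (ρ g) = W}
  mul_mem' := by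
    intro a b ha hb
    simp only [Set.mem_ofPred_eq] at ha hb ⊢
    rw [map_mul', hb, ha]
  one_mem' := map_one' ρ W
  inv_mem' := by
    intro a ha
    simp only [Set.mem_ofPred_eq] at ha ⊢
    conv_lhs => rw [← ha]
    rw [← map_mul', inv_mul_cancel, map_one']

theorem top_of_finite {ρ : G →* End K V} (hI : Irr ρ) (W : Submodule K V) (hW : W ≠ ⊥)
    (hf : (Set.range (fun g => W.map (ρ g))).Finite) : W = ⊤ := by
  refine hI (stab ρ W) (fi _ (fun g => W.map (ρ g)) hf ?_) W hW ?_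
  · intro a b hab
    change W.map (ρ (a⁻¹ * b)) = W
    have hab' : W.map (ρ a) = W.map (ρ b) := hab
    rw [map_mul', ← hab', ← map_mul', inv_mul_cancel, map_one']
  · intro g hg w hw
    have h1 : ρ g w ∈ W.map (ρ g) := Submodule.mem_map_of_mem hw
    have h2 : W.map (ρ g) = W := hg
    rwa [h2] at h1

theorem inj (ρ : G →* End K V) (g : G) (v : V) (h : ρ g v = 0) : v = 0 := by
  have h1 : ρ g⁻¹ (ρ g v) = v := by
    have : (ρ g⁻¹ * ρ g) v = v := by rw [← map_mul, inv_mul_cancel, map_one]; rfl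
    exact this
  rw [← h1, h, map_zero]

/-- (a) a normal subgroup acting by commuting operators acts by scalars -/
theorem comm_scalar [IsAlgClosed K] [Nontrivial V] {ρ : G →* End K V} (hI : Irr ρ)
    (Z : Subgroup G) (hN : Z.Normal) (hc : ∀ a ∈ Z, ∀ b ∈ Z, ρ a * ρ b = ρ b * ρ a) :
    ∀ z ∈ Z, ∃ c : K, ρ z = c • 1 := by
  have hcc : ∀ i j : Z, Commute (ρ i) (ρ j) := fun i j => hc i i.2 j j.2
  obtain ⟨v, hv, hv2⟩ := common (fun z : Z => ρ z) hcc
  choose χ hχ using hv2
  let JE : (Z → K) → Submodule K V := fun χ => ⨅ z : Z, (ρ z).eigenspace (χ z)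
  have hJE : ∀ (χ : Z → K) (u : V), u ∈ JE χ ↔ ∀ z : Z, ρ z u = χ z • u := by
    intro χ u
    change u ∈ (⨅ z : Z, (ρ z).eigenspace (χ z)) ↔ _
    rw [Submodule.mem_iInf]
    exact forall_congr' fun z => Module.End.mem_eigenspace_iff
  have hfin := finchar (fun z : Z => ρ z) hcc
  have hvm : v ∈ JE χ := (hJE χ v).2 hχ
  have htop : JE χ = ⊤ := by
    refine top_of_finite hI (JE χ) ?_ ?_
    · intro h0
      rw [h0] at hvm
      exact hv ((Submodule.mem_bot K).1 hvm)
    · refine (hfin.image JE).subset ?_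
      rintro _ ⟨g, rfl⟩
      refine ⟨fun z => χ ⟨g⁻¹ * z * g, by
        have := hN.conj_mem z z.2 g⁻¹
        rwa [inv_inv] at this⟩, ⟨ρ g v, fun h => hv (inj ρ g v h), ?_⟩, ?_⟩
      · intro z
        have h1 : ρ z (ρ g v) = ρ g (ρ (g⁻¹ * z * g) v) := by
          have : (ρ z * ρ g) v = (ρ g * ρ (g⁻¹ * z * g)) v := by
            rw [← map_mul, ← map_mul]
            congr 2
            group
          exact this
        change ρ z (ρ g v) = _
        rw [h1]
        have h2 := hχ ⟨g⁻¹ * z * g, by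
          have := hN.conj_mem z z.2 g⁻¹
          rwa [inv_inv] at this⟩
        change ρ (g⁻¹ * z * g) v = _ at h2
        rw [h2, map_smul]
      · ext u
        rw [hJE]
        constructor
        · intro hu
          refine ⟨ρ g⁻¹ u, ?_, ?_⟩
          · rw [SetLike.mem_coe, hJE]
            intro z
            have h1 : ρ z (ρ g⁻¹ u) = ρ g⁻¹ (ρ (g * z * g⁻¹) u) := by
              have : (ρ z * ρ g⁻¹) u = (ρ g⁻¹ * ρ (g * z * g⁻¹)) u := by
                rw [← map_mul, ← map_mul]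
                congr 2
                group
              exact this
            have h2 := hu ⟨g * z * g⁻¹, hN.conj_mem z z.2 g⟩
            have h3 : (⟨g⁻¹ * (g * z * g⁻¹) * g, by
                have := hN.conj_mem (g * z * g⁻¹) (hN.conj_mem z z.2 g) g⁻¹
                rwa [inv_inv] at this⟩ : Z) = z := by
              apply Subtype.ext
              change g⁻¹ * (g * z * g⁻¹) * g = (z : G)
              group
            change ρ (g * z * g⁻¹) u = χ (⟨g⁻¹ * (g * z * g⁻¹) * g, _⟩ : Z) • u at h2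
            rw [h3] at h2
            rw [h1, h2, map_smul]
          · have : (ρ g * ρ g⁻¹) u = u := by rw [← map_mul, mul_inv_cancel, map_one]; rfl
            exact this
        · rintro ⟨w, hw, rfl⟩ z
          rw [SetLike.mem_coe, hJE] at hw
          have h1 : ρ z (ρ g w) = ρ g (ρ (g⁻¹ * z * g) w) := by
            have : (ρ z * ρ g) w = (ρ g * ρ (g⁻¹ * z * g)) w := by
              rw [← map_mul, ← map_mul]
              congr 2
              group
            exact this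
          rw [h1]
          have h2 := hw ⟨g⁻¹ * z * g, by
            have := hN.conj_mem z z.2 g⁻¹
            rwa [inv_inv] at this⟩
          change ρ (g⁻¹ * z * g) w = _ at h2
          rw [h2, map_smul]
  intro z hz
  refine ⟨χ ⟨z, hz⟩, ?_⟩
  ext u
  have hu : u ∈ JE χ := by rw [htop]; trivial
  exact (hJE χ u).1 hu ⟨z, hz⟩

theorem rne [Nontrivial V] (ρ : G →* End K V) (g : G) : ρ g ≠ 0 := by
  intro h
  obtain ⟨v, hv⟩ := exists_ne (0 : V)
  exact hv (inj ρ g v (by rw [h]; rfl))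

/-- the subgroup of the elements of `A` which commute with `A` up to the kernel -/
def cen (ρ : G →* End K V) (A : Subgroup G) : Subgroup G where
  carrier := {a | a ∈ A ∧ ∀ b ∈ A, ρ a * ρ b = ρ b * ρ a}
  mul_mem' := by
    rintro a a' ⟨ha, ha2⟩ ⟨ha', ha2'⟩
    refine ⟨A.mul_mem ha ha', fun b hb => ?_⟩
    rw [map_mul, mul_assoc, ha2' b hb, ← mul_assoc, ha2 b hb, mul_assoc]
  one_mem' := ⟨A.one_mem, fun b _ => by rw [map_one, one_mul, mul_one]⟩
  inv_mem' := by
    rintro a ⟨ha, ha2⟩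
    refine ⟨A.inv_mem ha, fun b hb => ?_⟩
    have h1 : ρ a * ρ a⁻¹ = 1 := by rw [← map_mul, mul_inv_cancel, map_one]
    have h2 : ρ a⁻¹ * ρ a = 1 := by rw [← map_mul, inv_mul_cancel, map_one]
    calc ρ a⁻¹ * ρ b = ρ a⁻¹ * (ρ b * (ρ a * ρ a⁻¹)) := by rw [h1, mul_one]
      _ = ρ a⁻¹ * (ρ b * ρ a) * ρ a⁻¹ := by simp only [mul_assoc]
      _ = ρ a⁻¹ * (ρ a * ρ b) * ρ a⁻¹ := by rw [ha2 b hb]
      _ = (ρ a⁻¹ * ρ a) * ρ b * ρ a⁻¹ := by simp only [mul_assoc]
      _ = ρ b * ρ a⁻¹ := by rw [h2, one_mul]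

theorem cen_normal (ρ : G →* End K V) (A : Subgroup G) (hN : A.Normal) : (cen ρ A).Normal := by
  refine ⟨?_⟩
  rintro a ⟨ha, ha2⟩ g
  refine ⟨hN.conj_mem a ha g, fun b hb => ?_⟩
  have hb' : g⁻¹ * b * g ∈ A := by
    have := hN.conj_mem b hb g⁻¹
    rwa [inv_inv] at this
  have h1 := ha2 _ hb'
  rw [← map_mul, ← map_mul] at h1 ⊢
  have e1 : g * a * g⁻¹ * b = g * (a * (g⁻¹ * b * g)) * g⁻¹ := by group
  have e2 : b * (g * a * g⁻¹) = g * ((g⁻¹ * b * g) * a) * g⁻¹ := by group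
  rw [e1, e2]
  calc ρ (g * (a * (g⁻¹ * b * g)) * g⁻¹) = ρ g * ρ (a * (g⁻¹ * b * g)) * ρ g⁻¹ := by
        rw [map_mul, map_mul]
    _ = ρ g * ρ (g⁻¹ * b * g * a) * ρ g⁻¹ := by rw [h1]
    _ = _ := by rw [← map_mul, ← map_mul]

/-- (b), (c) -/
theorem step [IsAlgClosed K] [Nontrivial V] {ρ : G →* End K V} (hI : Irr ρ) (A : Subgroup G)
    (hN : A.Normal) (hA : ∀ a ∈ A, ∀ b ∈ A, ∃ c : K, ρ (a * b * a⁻¹ * b⁻¹) = c • 1) :
    ∀ a ∈ A, ∃ c : K, ρ a = c • 1 := by
  have hZ := comm_scalar hI (cen ρ A) (cen_normal ρ A hN) (fun a ha b hb => ha.2 b hb.1)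
  have hcm : ∀ a b : A, ∃ c : K, c ≠ 0 ∧ ρ (b * a) = c • ρ (a * b) := by
    intro a b
    obtain ⟨c, hc⟩ := hA b b.2 a a.2
    have h1 : ρ (b * a) = c • ρ (a * b) := by
      have e : (b : G) * a = (b * a * (b : G)⁻¹ * (a : G)⁻¹) * (a * b) := by group
      rw [e, map_mul, hc, smul_mul_assoc, one_mul]
    refine ⟨c, ?_, h1⟩
    rintro rfl
    rw [zero_smul] at h1
    exact rne ρ _ h1
  choose γ hγ0 hγ using hcm
  let Ad : A → End K (End K V) := fun b => LinearMap.mulLeft K (ρ b) ∘ₗ LinearMap.mulRight K (ρ (b : G)⁻¹)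
  have hAd : ∀ (b : A) (T : End K V), Ad b T = ρ b * (T * ρ (b : G)⁻¹) := fun b T => rfl
  have hcomm : ∀ b b' : A, Commute (Ad b) (Ad b') := by
    intro b b'
    change Ad b * Ad b' = Ad b' * Ad b
    refine LinearMap.ext fun T => ?_
    change Ad b (Ad b' T) = Ad b' (Ad b T)
    rw [hAd, hAd, hAd, hAd]
    have h1 := hγ b' b
    have h2 : ρ (((b' : G) * b)⁻¹) = γ b' b • ρ (((b : G) * b')⁻¹) := by
      have e1 : ρ ((b : G) * b') * ρ (((b : G) * b')⁻¹) = 1 := by
        rw [← map_mul, mul_inv_cancel, map_one]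
      have e2 : ρ (((b' : G) * b)⁻¹) * ρ ((b' : G) * b) = 1 := by
        rw [← map_mul, inv_mul_cancel, map_one]
      calc ρ (((b' : G) * b)⁻¹) = ρ (((b' : G) * b)⁻¹) * (ρ ((b : G) * b') * ρ (((b : G) * b')⁻¹)) := by
            rw [e1, mul_one]
        _ = γ b' b • ((ρ (((b' : G) * b)⁻¹) * ρ ((b' : G) * b)) * ρ (((b : G) * b')⁻¹)) := by
            rw [h1, smul_mul_assoc, mul_smul_comm, mul_assoc]
        _ = _ := by rw [e2, one_mul]
    calc ρ b * (ρ b' * (T * ρ (b' : G)⁻¹) * ρ (b : G)⁻¹)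
        = ρ ((b : G) * b') * T * ρ (((b : G) * b')⁻¹) := by
          rw [mul_inv_rev, map_mul, map_mul]
          simp only [mul_assoc]
      _ = ρ ((b' : G) * b) * T * (γ b' b • ρ (((b : G) * b')⁻¹)) := by
          rw [h1, smul_mul_assoc, smul_mul_assoc, mul_smul_comm]
      _ = ρ ((b' : G) * b) * T * ρ (((b' : G) * b)⁻¹) := by rw [← h2]
      _ = ρ b' * (ρ b * (T * ρ (b : G)⁻¹) * ρ (b' : G)⁻¹) := by
          rw [mul_inv_rev, map_mul, map_mul]
          simp only [mul_assoc]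
  have hfin := finchar Ad hcomm
  have hmem : ∀ a : A, γ a ∈ {χ : A → K | ∃ T : End K V, T ≠ 0 ∧ ∀ b, Ad b T = χ b • T} := by
    intro a
    refine ⟨ρ a, rne ρ a, fun b => ?_⟩
    have e : ρ (a : G) * ρ (b : G) * ρ (b : G)⁻¹ = ρ a := by
      rw [mul_assoc, ← map_mul, mul_inv_cancel, map_one, mul_one]
    rw [hAd, ← mul_assoc, ← map_mul, hγ a b, smul_mul_assoc, map_mul, e]
  have hsame : ∀ a a' : A, γ a = γ a' → ∃ s : K, s ≠ 0 ∧ ρ a = s • ρ a' := by
    intro a a' haa
    have hin : (a' : G)⁻¹ * a ∈ cen ρ A := by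
      refine ⟨A.mul_mem (A.inv_mem a'.2) a.2, fun b hb => ?_⟩
      have h1 := hγ a ⟨b, hb⟩
      have h2 := hγ a' ⟨b, hb⟩
      rw [← haa] at h2
      have h0 := hγ0 a ⟨b, hb⟩
      change ρ (b * a) = _ at h1
      change ρ (b * a') = _ at h2
      change ρ (b * a) = γ a ⟨b, hb⟩ • ρ (a * b) at h1
      change ρ (b * a') = γ a ⟨b, hb⟩ • ρ (a' * b) at h2
      have h3 : ρ ((a' : G)⁻¹ * b) = γ a ⟨b, hb⟩ • ρ (b * (a' : G)⁻¹) := by
        have e : (a' : G)⁻¹ * b = (a' : G)⁻¹ * (b * a') * (a' : G)⁻¹ := by group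
        have e2 : b * (a' : G)⁻¹ = (a' : G)⁻¹ * (a' * b) * (a' : G)⁻¹ := by group
        rw [e, map_mul, map_mul, h2, mul_smul_comm, smul_mul_assoc, ← map_mul, ← map_mul, ← e2]
      have h4 : γ a ⟨b, hb⟩ • (ρ ((a' : G)⁻¹ * a) * ρ b) = γ a ⟨b, hb⟩ • (ρ b * ρ ((a' : G)⁻¹ * a)) := by
        calc γ a ⟨b, hb⟩ • (ρ ((a' : G)⁻¹ * a) * ρ b)
            = ρ (a' : G)⁻¹ * (γ a ⟨b, hb⟩ • ρ (a * b)) := by
              rw [mul_smul_comm, map_mul, map_mul, mul_assoc]
          _ = ρ (a' : G)⁻¹ * ρ (b * a) := by rw [h1]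
          _ = ρ ((a' : G)⁻¹ * b) * ρ a := by rw [map_mul, map_mul, mul_assoc]
          _ = γ a ⟨b, hb⟩ • (ρ b * ρ ((a' : G)⁻¹ * a)) := by
              rw [h3, smul_mul_assoc, map_mul, map_mul, mul_assoc]
      exact smul_right_injective _ h0 h4
    obtain ⟨s, hs⟩ := hZ _ hin
    have h5 : ρ a = s • ρ a' := by
      have e : (a : G) = a' * ((a' : G)⁻¹ * a) := by group
      rw [e, map_mul, hs, mul_smul_comm, mul_one]
    refine ⟨s, ?_, h5⟩
    rintro rfl
    rw [zero_smul] at h5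
    exact rne ρ _ h5
  intro a ha
  obtain ⟨μ, hμ⟩ := Module.End.exists_eigenvalue (ρ a)
  have hE : (ρ a).eigenspace μ ≠ ⊥ := hμ
  classical
  let rep : (A → K) → A := fun χ => if h : ∃ a, γ a = χ then h.choose else 1
  have hrep : ∀ x : A, γ (rep (γ x)) = γ x := by
    intro x
    have hex : ∃ a, γ a = γ x := ⟨x, rfl⟩
    change γ (if h : ∃ a, γ a = γ x then h.choose else 1) = γ x
    rw [dif_pos hex]
    exact hex.choose_spec
  have hmap : ∀ g : G, ((ρ a).eigenspace μ).map (ρ g) = (ρ (g * a * g⁻¹)).eigenspace μ := by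
    intro g
    ext u
    rw [Module.End.mem_eigenspace_iff]
    constructor
    · rintro ⟨w, hw, rfl⟩
      have hw' : ρ a w = μ • w := Module.End.mem_eigenspace_iff.1 hw
      have h1 : ρ (g * a * g⁻¹) (ρ g w) = ρ g (ρ a w) := by
        have : (ρ (g * a * g⁻¹) * ρ g) w = (ρ g * ρ a) w := by
          rw [← map_mul, ← map_mul]
          congr 2
          group
        exact this
      rw [h1, hw', map_smul]
    · intro hu
      refine ⟨ρ g⁻¹ u, ?_, ?_⟩
      · refine Module.End.mem_eigenspace_iff.2 ?_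
        have h1 : ρ a (ρ g⁻¹ u) = ρ g⁻¹ (ρ (g * a * g⁻¹) u) := by
          have : (ρ a * ρ g⁻¹) u = (ρ g⁻¹ * ρ (g * a * g⁻¹)) u := by
            rw [← map_mul, ← map_mul]
            congr 2
            group
          exact this
        rw [h1, hu, map_smul]
      · have : (ρ g * ρ g⁻¹) u = u := by rw [← map_mul, mul_inv_cancel, map_one]; rfl
        exact this
  have htop : (ρ a).eigenspace μ = ⊤ := by
    refine top_of_finite hI _ hE ?_
    have hU : (⋃ χ ∈ {χ : A → K | ∃ T : End K V, T ≠ 0 ∧ ∀ b, Ad b T = χ b • T},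
        (fun ν => (ρ (rep χ)).eigenspace ν) '' {ν : K | (ρ (rep χ)).HasEigenvalue ν}).Finite :=
      hfin.biUnion fun χ _ => (Module.End.finite_hasEigenvalue _).image _
    refine hU.subset ?_
    rintro _ ⟨g, rfl⟩
    have hg : g * a * g⁻¹ ∈ A := hN.conj_mem a ha g
    obtain ⟨s, hs0, hs⟩ := hsame ⟨g * a * g⁻¹, hg⟩ (rep (γ ⟨g * a * g⁻¹, hg⟩)) (hrep _).symm
    change ρ (g * a * g⁻¹) = _ at hs
    have h1 : ((ρ a).eigenspace μ).map (ρ g) =
        (ρ (rep (γ ⟨g * a * g⁻¹, hg⟩))).eigenspace (s⁻¹ * μ) := by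
      rw [hmap g, hs]
      ext u
      rw [Module.End.mem_eigenspace_iff, Module.End.mem_eigenspace_iff, LinearMap.smul_apply]
      constructor
      · intro h
        rw [mul_smul, ← h, smul_smul, inv_mul_cancel₀ hs0, one_smul]
      · intro h
        rw [h, smul_smul, ← mul_assoc, mul_inv_cancel₀ hs0, one_mul]
    refine Set.mem_biUnion (hmem ⟨g * a * g⁻¹, hg⟩) ⟨s⁻¹ * μ, ?_, h1.symm⟩
    change (ρ (rep (γ ⟨g * a * g⁻¹, hg⟩))).eigenspace (s⁻¹ * μ) ≠ ⊥
    rw [← h1]
    intro h0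
    obtain ⟨w, hw, hw0⟩ := Submodule.exists_mem_ne_zero_of_ne_bot hE
    have h2 : ρ g w ∈ ((ρ a).eigenspace μ).map (ρ g) := Submodule.mem_map_of_mem hw
    rw [h0, Submodule.mem_bot] at h2
    exact hw0 (inj ρ g w h2)
  refine ⟨μ, ?_⟩
  ext u
  have hu : u ∈ (ρ a).eigenspace μ := by rw [htop]; trivial
  exact Module.End.mem_eigenspace_iff.1 hu

/-- a solvable group in the irreducible situation acts by scalars -/
theorem scalar_of_irr [IsAlgClosed K] [Nontrivial V] (hG : Group.IsSolvable G) {ρ : G →* End K V}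
    (hI : Irr ρ) : ∀ g, ∃ c : K, ρ g = c • 1 := by
  obtain ⟨n, hn⟩ := hG.solvable
  have key : ∀ d : ℕ, (∀ g ∈ derivedSeries G d, ∃ c : K, ρ g = c • 1) → ∀ g, ∃ c : K, ρ g = c • 1 := by
    intro d
    induction d with
    | zero => exact fun h g => h g (by rw [derivedSeries_zero]; trivial)
    | succ d ih =>
      intro h
      refine ih (step hI (derivedSeries G d) inferInstance fun a ha b hb => h _ ?_)
      rw [derivedSeries_succ]
      exact Subgroup.commutator_mem_commutator ha hb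
  refine key n fun g hg => ⟨1, ?_⟩
  rw [hn, Subgroup.mem_bot] at hg
  rw [hg, map_one, one_smul]

theorem lne : S_LNE := by
  intro K _ _ V _ _ _ G _ hG hV ρ
  classical
  let P : ℕ → Prop := fun n => ∃ H : Subgroup G, H.index ≠ 0 ∧ ∃ W : Submodule K V, W ≠ ⊥ ∧
    (∀ g ∈ H, ∀ w ∈ W, ρ g w ∈ W) ∧ finrank K W = n
  have hnt : Nontrivial V := Module.nontrivial_of_finrank_pos hV
  have hex : ∃ n, P n := ⟨_, ⊤, by rw [Subgroup.index_top]; exact one_ne_zero, ⊤, top_ne_bot,
    fun _ _ _ _ => trivial, rfl⟩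
  obtain ⟨H, hH, W, hW, hinv, hfr⟩ := Nat.find_spec hex
  have hntW : Nontrivial W := Submodule.nontrivial_iff_ne_bot.2 hW
  let σ : H →* End K W :=
    { toFun := fun h => (ρ h).restrict (hinv h h.2)
      map_one' := by
        refine LinearMap.ext fun w => Subtype.ext ?_
        change ρ ((1 : H) : G) w = w
        rw [Subgroup.coe_one, map_one]
        rfl
      map_mul' := by
        intro a b
        refine LinearMap.ext fun w => Subtype.ext ?_
        change ρ ((a * b : H) : G) w = ρ a (ρ b w)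
        rw [Subgroup.coe_mul, map_mul]
        rfl }
  have hσ : ∀ (h : H) (w : W), ((σ h w : W) : V) = ρ h w := fun h w => rfl
  have hIrr : Irr σ := by
    intro H' hH' W' hW' hinv'
    have h1 : P (finrank K (W'.map W.subtype)) := by
      refine ⟨H'.map H.subtype, ?_, W'.map W.subtype, ?_, ?_, rfl⟩
      · rw [Subgroup.index_map_subtype]
        exact Nat.mul_ne_zero hH' hH
      · intro h0
        obtain ⟨x, hx, hx0⟩ := Submodule.exists_mem_ne_zero_of_ne_bot hW'
        have h5 : W.subtype x ∈ W'.map W.subtype := Submodule.mem_map_of_mem hx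
        rw [h0, Submodule.mem_bot] at h5
        exact hx0 (Subtype.ext h5)
      · rintro _ ⟨h, hh, rfl⟩ _ ⟨w, hw, rfl⟩
        exact ⟨σ h w, hinv' h hh w hw, hσ h w⟩
    have h2 := Nat.find_min' hex h1
    rw [← hfr] at h2
    have h3 : finrank K (W'.map W.subtype) = finrank K W' :=
      (Submodule.equivMapOfInjective W.subtype W.injective_subtype W').finrank_eq.symm
    rw [h3] at h2
    exact Submodule.eq_top_of_finrank_eq (le_antisymm (Submodule.finrank_le W') h2)
  have hHs : Group.IsSolvable H := inferInstance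
  have hsc := scalar_of_irr hHs hIrr
  obtain ⟨w, hw⟩ := exists_ne (0 : W)
  refine ⟨H, hH, (w : V), fun h => hw (Subtype.ext h), fun g hg => ?_⟩
  obtain ⟨c, hc⟩ := hsc ⟨g, hg⟩
  refine ⟨c, ?_⟩
  have h4 := hσ ⟨g, hg⟩ w
  rw [hc] at h4
  exact h4.symm

end Pool.Agent.H668.GI
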